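import Pool.Agent.Y150.KN.Stm5
import Pool.Agent.Y180.KN.AV
import Pool.Agent.Y46.KN.PwSgn
import Pool.Agent.Y840.KN.G5

/-!
# From forms on powers to classes on powers (job KN-L5)
-/

set_option autoImplicit false

open CategoryTheory AlgebraicGeometry

namespace Pool.Agent.Y232.KN

universe u v w

open Pool.Agent.H914 VarClass Obj Pool.Agent.Y150.KN Pool.Agent.Y180.KN

/-! ## Products of lists with central factors -/

lemma mul_ofFn {R : Type*} [Monoid R] {n : ℕ} (b : Fin n → R) (hb : ∀ i x, b i * x = x * b i)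
    (i : Fin n) (x : R) :
    x * (List.ofFn b).prod = (List.ofFn (Function.update b i (x * b i))).prod := by
  induction n with
  | zero => exact i.elim0
  | succ n ih =>
    rw [List.ofFn_succ, List.prod_cons, List.ofFn_succ, List.prod_cons]
    refine Fin.cases ?_ (fun i => ?_) i
    · rw [Function.update_self, mul_assoc]
      congr 3
    · have h1 : (fun l : Fin n => Function.update b i.succ (x * b i.succ) l.succ) =
          Function.update (fun l : Fin n => b l.succ) i (x * b i.succ) := by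
        funext l
        by_cases h : l = i
        · subst h
          rw [Function.update_self, Function.update_self]
        · rw [Function.update_of_ne h, Function.update_of_ne (fun h' => h (Fin.succ_injective _ h'))]
      rw [h1, ← ih (fun l => b l.succ) (fun l x => hb _ _) i, Function.update_of_ne
        (Fin.succ_ne_zero i).symm, ← mul_assoc, ← hb 0 x, mul_assoc]

lemma ofFn_mul {R : Type*} [Monoid R] {n : ℕ} (a b : Fin n → R) (hb : ∀ i x, b i * x = x * b i) :
    (List.ofFn fun i => a i * b i).prod = (List.ofFn b).prod * (List.ofFn a).prod := by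
  induction n with
  | zero => simp
  | succ n ih =>
    have hc : ∀ x, (List.ofFn fun l : Fin n => b l.succ).prod * x =
        x * (List.ofFn fun l : Fin n => b l.succ).prod := by
      intro x
      have : ∀ L : List R, (∀ y ∈ L, ∀ x, y * x = x * y) → ∀ x, L.prod * x = x * L.prod := by
        intro L hL
        induction L with
        | nil => intro x; simp
        | cons y L ih =>
          intro x
          rw [List.prod_cons, mul_assoc, ih (fun y hy => hL y (List.mem_cons_of_mem _ hy)),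
            ← mul_assoc, hL y List.mem_cons_self, mul_assoc]
      refine this _ (fun y hy => ?_) x
      obtain ⟨i, rfl⟩ := (List.mem_ofFn' _ _).1 hy
      exact hb _
    have hb0 := hb 0
    rw [List.ofFn_succ, List.prod_cons, List.ofFn_succ (f := b), List.prod_cons,
      List.ofFn_succ (f := a), List.prod_cons, ih _ _ (fun i x => hb _ _)]
    generalize (List.ofFn fun l : Fin n => b l.succ).prod = P at *
    generalize (List.ofFn fun l : Fin n => a l.succ).prod = Q at *
    generalize b 0 = B at *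
    generalize a 0 = A at *
    calc A * B * (P * Q) = B * A * (P * Q) := by rw [hb0]
      _ = B * (A * P) * Q := by simp only [mul_assoc]
      _ = B * (P * A) * Q := by rw [hc]
      _ = B * P * (A * Q) := by simp only [mul_assoc]

section

variable {k : Type u} [Field k] {𝒱 : VarClass k} {ops : CycleOps 𝒱} (W : Coh.{u, v} ops)

lemma list_mem_alg {Y : 𝒱.Obj} (L : List (W.H Y)) (hL : ∀ y ∈ L, y ∈ W.algSpan Y) :
    L.prod ∈ W.algSpan Y := by
  induction L with
  | nil => exact W.one_mem_alg Y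
  | cons a L ih =>
    rw [List.prod_cons]
    exact W.mul_mem_alg (hL a List.mem_cons_self) (ih fun y hy => hL y (List.mem_cons_of_mem _ hy))

lemma ofFn_mem_alg {Y : 𝒱.Obj} {n : ℕ} (b : Fin n → W.H Y) (hb : ∀ i, b i ∈ W.algSpan Y) :
    (List.ofFn b).prod ∈ W.algSpan Y := by
  refine list_mem_alg W _ (fun y hy => ?_)
  obtain ⟨i, rfl⟩ := (List.mem_ofFn' _ _).1 hy
  exact hb i

lemma ofFn_mem_gr {Y : 𝒱.Obj} {n : ℕ} (b : Fin n → W.H Y) (d : Fin n → ℕ)
    (hb : ∀ i, b i ∈ W.gr Y (d i)) : (List.ofFn b).prod ∈ W.gr Y (∑ i, d i) := by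
  induction n with
  | zero => simpa using W.one_mem Y
  | succ n ih =>
    rw [List.ofFn_succ, List.prod_cons, Fin.sum_univ_succ]
    exact W.mul_mem (hb 0) (ih _ _ fun i => hb _)

variable {X Y : 𝒱.Obj} {n : ℕ} (qr : Fin n → (Y ⟶ X))

/-- the pull-backs of the classes of degree one -/
def TT : Set (W.H Y) := {y | ∃ i, ∃ v ∈ W.gr X 1, y = W.map (qr i) v}

lemma TT_mem {y : W.H Y} (hy : y ∈ TT W qr) : y ∈ W.gr Y 1 := by
  obtain ⟨i, v, hv, rfl⟩ := hy
  exact W.map_mem _ hv

variable {qr}

lemma adjoin_TT (hY : IsPw W X Y qr)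
    (hgen : Algebra.adjoin W.K (W.gr X 1 : Set (W.H X)) = ⊤) :
    Algebra.adjoin W.K (TT W qr) = ⊤ := by
  have h1 : ∀ i (a : W.H X), W.map (qr i) a ∈ Algebra.adjoin W.K (TT W qr) := by
    intro i a
    have ha : a ∈ Algebra.adjoin W.K (W.gr X 1 : Set (W.H X)) := by rw [hgen]; trivial
    have h2 : W.map (qr i) a ∈
        (Algebra.adjoin W.K (W.gr X 1 : Set (W.H X))).map (W.map (qr i)) := ⟨a, ha, rfl⟩
    rw [AlgHom.map_adjoin] at h2
    refine Algebra.adjoin_mono ?_ h2
    rintro _ ⟨v, hv, rfl⟩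
    exact ⟨i, v, hv, rfl⟩
  rw [eq_top_iff]
  intro y _
  have hy : y ∈ Submodule.span W.K
      {x | ∃ a : Fin n → W.H X, x = (List.ofFn fun i => W.map (qr i) (a i)).prod} := by
    rw [hY.span]; trivial
  have h3 : Submodule.span W.K
      {x | ∃ a : Fin n → W.H X, x = (List.ofFn fun i => W.map (qr i) (a i)).prod} ≤
        Subalgebra.toSubmodule (Algebra.adjoin W.K (TT W qr)) := by
    rw [Submodule.span_le]
    rintro _ ⟨a, rfl⟩
    refine Subalgebra.list_prod_mem _ (fun y hy => ?_)
    obtain ⟨i, rfl⟩ := (List.mem_ofFn' _ _).1 hy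
    exact h1 _ _
  exact h3 hy

lemma span_TT (hY : IsPw W X Y qr)
    (hgen : Algebra.adjoin W.K (W.gr X 1 : Set (W.H X)) = ⊤) {z : W.H Y} (hz : z ∈ W.gr Y 1) :
    z ∈ Submodule.span W.K (TT W qr) := by
  have hadj := adjoin_TT W hY hgen
  rcases lt_or_ge (2 * Y.dim) 1 with hn | hn
  · rw [W.gr_eq_bot Y 1 hn, Submodule.mem_bot] at hz
    rw [hz]
    exact Submodule.zero_mem _
  obtain ⟨l, hl⟩ := Nat.exists_eq_add_of_le hn
  have hle : Submodule.span W.K (TT W qr) ≤ W.gr Y 1 :=
    Submodule.span_le.2 fun y hy => TT_mem W qr hy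
  have key : ∀ a : W.H Y, ∃ s ∈ Submodule.span W.K (TT W qr), ∀ c ∈ W.gr Y l,
      W.tr Y (a * c) = W.tr Y (s * c) := by
    intro a
    have ha : a ∈ Subalgebra.toSubmodule (Algebra.adjoin W.K (TT W qr)) := by
      rw [hadj]; trivial
    rw [Algebra.adjoin_eq_span] at ha
    induction ha using Submodule.span_induction with
    | mem x hx =>
      obtain ⟨L, hL, rfl⟩ := Submonoid.exists_list_of_mem_closure hx
      by_cases hLn : L.length = 1
      · obtain ⟨t, rfl⟩ := List.length_eq_one_iff.1 hLn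
        refine ⟨t, Submodule.subset_span (hL t (by simp)), fun c _ => by simp⟩
      · refine ⟨0, Submodule.zero_mem _, fun c hc => ?_⟩
        rw [zero_mul, map_zero]
        refine W.tr_eq_zero (W.mul_mem (list_mem W L fun y hy => TT_mem W qr (hL y hy)) hc) ?_
        omega
    | zero => exact ⟨0, Submodule.zero_mem _, fun c _ => by simp⟩
    | add x y _ _ hx hy =>
      obtain ⟨s, hs, h1⟩ := hx
      obtain ⟨t, ht, h2⟩ := hy
      refine ⟨s + t, Submodule.add_mem _ hs ht, fun c hc => ?_⟩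
      rw [add_mul, map_add, h1 c hc, h2 c hc, add_mul, map_add]
    | smul q x _ hx =>
      obtain ⟨s, hs, h1⟩ := hx
      refine ⟨q • s, Submodule.smul_mem _ _ hs, fun c hc => ?_⟩
      rw [smul_mul_assoc, map_smul, h1 c hc, smul_mul_assoc, map_smul]
  obtain ⟨s, hs, h⟩ := key z
  have h0 : z - s = 0 := by
    refine W.eq_zero_of_gr (i := 1) (l := l) hl.symm (Submodule.sub_mem _ hz (hle hs)) ?_
    intro b hb
    rw [sub_mul, map_sub, h b hb, sub_self]
  rw [sub_eq_zero.1 h0]
  exact hs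

/-- The elements of degree one of a power are sums of pull-backs. -/
lemma exists_sum (hY : IsPw W X Y qr)
    (hgen : Algebra.adjoin W.K (W.gr X 1 : Set (W.H X)) = ⊤) {z : W.H Y} (hz : z ∈ W.gr Y 1) :
    ∃ v : Fin n → W.H X, (∀ i, v i ∈ W.gr X 1) ∧ z = ∑ i, W.map (qr i) (v i) := by
  classical
  have h := span_TT W hY hgen hz
  induction h using Submodule.span_induction with
  | mem x hx =>
    obtain ⟨i, v, hv, rfl⟩ := hx
    refine ⟨fun l => if l = i then v else 0, fun l => ?_, ?_⟩
    · by_cases h : l = i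
      · simp only [h, if_true]; exact hv
      · simp only [h, if_false]; exact Submodule.zero_mem _
    · rw [Finset.sum_eq_single i]
      · simp
      · intro l _ h
        simp [h]
      · intro h
        exact absurd (Finset.mem_univ i) h
  | zero => exact ⟨fun _ => 0, fun _ => Submodule.zero_mem _, by simp⟩
  | add x y hx' hy' hx hy =>
    have hle : Submodule.span W.K (TT W qr) ≤ W.gr Y 1 :=
      Submodule.span_le.2 fun y hy => TT_mem W qr hy
    obtain ⟨v, hv, h1⟩ := hx (hle hx')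
    obtain ⟨v', hv', h2⟩ := hy (hle hy')
    refine ⟨fun i => v i + v' i, fun i => Submodule.add_mem _ (hv i) (hv' i), ?_⟩
    rw [h1, h2, ← Finset.sum_add_distrib]
    exact Finset.sum_congr rfl fun i _ => (map_add _ _ _).symm
  | smul q x hx' hx =>
    have hle : Submodule.span W.K (TT W qr) ≤ W.gr Y 1 :=
      Submodule.span_le.2 fun y hy => TT_mem W qr hy
    obtain ⟨v, hv, h1⟩ := hx (hle hx')
    refine ⟨fun i => q • v i, fun i => Submodule.smul_mem _ _ (hv i), ?_⟩
    rw [h1, Finset.smul_sum]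
    exact Finset.sum_congr rfl fun i _ => (map_smul _ _ _).symm

/-! ## The class of codimension `dim - 1` -/

variable (qr)

/-- the product of the pull-backs of `ω` along the projections different from `i` -/
noncomputable def alf (ω : W.H X) (i : Fin n) : W.H Y :=
  (List.ofFn fun l => W.map (qr l) (if l = i then 1 else ω)).prod

/-- the class of codimension `dim - 1` on the power -/
noncomputable def zet (ζ ω : W.H X) : W.H Y := ∑ i, W.map (qr i) ζ * alf W qr ω i

lemma alf_fac_alg {ω : W.H X} (hω : ω ∈ W.algSpan X) (i l : Fin n) :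
    W.map (qr l) (if l = i then 1 else ω) ∈ W.algSpan Y := by
  refine W.map_mem_alg _ ?_
  by_cases h : l = i
  · rw [if_pos h]; exact W.one_mem_alg X
  · rw [if_neg h]; exact hω

lemma alf_alg {ω : W.H X} (hω : ω ∈ W.algSpan X) (i : Fin n) : alf W qr ω i ∈ W.algSpan Y :=
  ofFn_mem_alg W _ (alf_fac_alg W qr hω i)

lemma mul_alf {ω : W.H X} (hω : ω ∈ W.algSpan X) (i l : Fin n) (x : W.H X) :
    W.map (qr l) x * alf W qr ω i = (List.ofFn fun s => W.map (qr s)
      (if s = l then (if s = i then x else x * ω) else (if s = i then 1 else ω))).prod := by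
  unfold alf
  rw [mul_ofFn _ (fun s y => W.alg_comm (alf_fac_alg W qr hω i s) y) l]
  congr 2
  funext s
  by_cases h : s = l
  · subst h
    rw [Function.update_self, ← _root_.map_mul, if_pos rfl]
    by_cases h' : s = i
    · rw [if_pos h', if_pos h', mul_one]
    · rw [if_neg h', if_neg h']
  · rw [Function.update_of_ne h, if_neg h]

lemma mul_alf_ne {ω : W.H X} (hω : ω ∈ W.algSpan X) {i l : Fin n} (hil : l ≠ i) {x : W.H X}
    (hx : x * ω = 0) : W.map (qr l) x * alf W qr ω i = 0 := by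
  rw [mul_alf W qr hω]
  refine List.prod_eq_zero ?_
  rw [List.mem_ofFn']
  refine ⟨l, ?_⟩
  simp only [if_true, if_neg hil, hx, _root_.map_zero]

lemma tr_alf (hY : IsPw W X Y qr) {ω : W.H X} (hω : ω ∈ W.algSpan X) (i : Fin n) (x : W.H X) :
    W.tr Y (W.map (qr i) x * alf W qr ω i) =
      ∏ s, W.tr X (if s = i then x else ω) := by
  rw [mul_alf W qr hω, hY.tr_prod]
  refine Finset.prod_congr rfl fun s _ => ?_
  congr 1
  by_cases h : s = i
  · rw [if_pos h, if_pos h, if_pos h]
  · rw [if_neg h, if_neg h, if_neg h]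

lemma zet_gr {g : ℕ} (hg : 0 < g) {ζ ω : W.H X} (hω : ω ∈ W.algSpan X)
    (hζg : ζ ∈ W.gr X (2 * (g - 1))) (hωg : ω ∈ W.gr X (2 * g)) :
    zet W qr ζ ω ∈ W.gr Y (2 * (n * g - 1)) := by
  classical
  refine Submodule.sum_mem _ fun i _ => ?_
  rw [mul_alf W qr hω]
  have h1 := ofFn_mem_gr W (fun s => W.map (qr s)
      (if s = i then (if s = i then ζ else ζ * ω) else (if s = i then 1 else ω)))
    (fun s => if s = i then 2 * (g - 1) else 2 * g) (fun s => by
      refine W.map_mem _ ?_
      by_cases h : s = i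
      · rw [if_pos h, if_pos h, if_pos h]; exact hζg
      · rw [if_neg h, if_neg h, if_neg h]; exact hωg)
  have h2 : ∑ s, (if s = i then 2 * (g - 1) else 2 * g) = 2 * (n * g - 1) := by
    have h3 : ∑ s, (if s = i then 2 * (g - 1) else 2 * g) + 2 =
        ∑ _s : Fin n, 2 * g := by
      rw [← Finset.add_sum_erase _ _ (Finset.mem_univ i),
        ← Finset.add_sum_erase Finset.univ (fun _ => 2 * g) (Finset.mem_univ i), if_pos rfl]
      have h4 : ∑ s ∈ Finset.univ.erase i, (if s = i then 2 * (g - 1) else 2 * g) =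
          ∑ s ∈ Finset.univ.erase i, 2 * g :=
        Finset.sum_congr rfl fun s hs => if_neg (Finset.ne_of_mem_erase hs)
      rw [h4]
      omega
    rw [Finset.sum_const, Finset.card_univ, Fintype.card_fin, smul_eq_mul] at h3
    have h5 : n * (2 * g) = 2 * (n * g) := by ring
    rw [h5] at h3
    omega
  rw [h2] at h1
  exact h1

lemma mul_zet {ζ ω : W.H X} (hζ : ζ ∈ W.algSpan X) (hω : ω ∈ W.algSpan X) (l : Fin n)
    {x : W.H X} (hx : x * ω = 0) :
    W.map (qr l) x * zet W qr ζ ω = W.map (qr l) (x * ζ) * alf W qr ω l := by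
  unfold zet
  rw [Finset.mul_sum, Finset.sum_eq_single l]
  · rw [← mul_assoc, ← _root_.map_mul]
  · intro i _ hi
    rw [← mul_assoc, ← W.alg_comm (W.map_mem_alg (qr i) hζ), mul_assoc,
      mul_alf_ne W qr hω hi.symm hx, mul_zero]
  · intro h
    exact absurd (Finset.mem_univ l) h

end

/-- The vanishing of the forms for `Y`. -/
lemma van {k : Type u} [Field k] {𝒱 : VarClass k} {ops : CycleOps 𝒱} (W : Coh.{u, v} ops)
    {X Y P P' : 𝒱.Obj} {n r : ℕ} {qr : Fin n → (Y ⟶ X)} {pr : Fin r → (P ⟶ X)}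
    {pr' : Fin r → (P' ⟶ Y)} (hP : IsPw W X P pr) {ζ ω : W.H X} (hζ : ζ ∈ W.algSpan X)
    (hω : ω ∈ W.algSpan X) (hvω : ∀ v ∈ W.gr X 1, v * ω = 0) (j : W.gr X 1 →ₗ[W.K] W.H X)
    (hj : ∀ x, j x = (x : W.H X) * ζ) (hvan : ∀ z ∈ W.numTriv P, frm W pr j z = 0)
    {z : W.H P'} (hz : z ∈ W.numTriv P') (φ : Fin r → Fin n) (v : Fin r → W.gr X 1) :
    W.tr P' (z * (List.ofFn fun l => W.map (pr' l)
      (W.map (qr (φ l)) (v l : W.H X) * zet W qr ζ ω)).prod) = 0 := by
  obtain ⟨G, hG⟩ := hP.exists_map P' (fun l => pr' l ≫ qr (φ l))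
  have h1 : (fun l => W.map (pr' l) (W.map (qr (φ l)) (v l : W.H X) * zet W qr ζ ω)) =
      fun l => W.map (pr' l ≫ qr (φ l)) ((v l : W.H X) * ζ) *
        W.map (pr' l) (alf W qr ω (φ l)) := by
    funext l
    rw [mul_zet W qr hζ hω (φ l) (hvω _ (v l).2), _root_.map_mul, W.map_comp]
  have hB : ∀ l, W.map (pr' l) (alf W qr ω (φ l)) ∈ W.algSpan P' :=
    fun l => W.map_mem_alg _ (alf_alg W qr hω _)
  rw [h1, ofFn_mul _ _ (fun l x => W.alg_comm (hB l) x), ← mul_assoc]
  have h2 := hvan _ (W.push_mem_num G (W.mul_mem_num hz (ofFn_mem_alg W _ hB)))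
  have h3 := congrArg (fun f => f v) h2
  simp only [frm_apply] at h3
  rw [W.tr_push, map_list_prod, List.map_ofFn] at h3
  have h4 : (W.map G ∘ fun i => W.map (pr i) (j (v i))) =
      fun l => W.map (pr' l ≫ qr (φ l)) ((v l : W.H X) * ζ) := by
    funext l
    rw [Function.comp_apply, ← W.map_comp, hG, hj]
  rw [h4] at h3
  exact h3

theorem av5 : S_av5.{u, v} := by
  classical
  intro k _ 𝒱 ops W X m hX hm hgen ξ hξ2 hξa hξ0 hnd j hj hvan n hn Y qr hY p z hzp hz
  obtain ⟨ζ, hζdef⟩ : ∃ ζ, ζ = ξ ^ (X.dim - 1) := ⟨_, rfl⟩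
  obtain ⟨ω, hωdef⟩ : ∃ ω, ω = ξ ^ X.dim := ⟨_, rfl⟩
  rw [← hζdef] at hnd
  rw [← hωdef] at hξ0
  simp only [← hζdef] at hj
  have hζg : ζ ∈ W.gr X (2 * (X.dim - 1)) := by rw [hζdef]; exact pow_mem_gr W hξ2 _
  have hωg : ω ∈ W.gr X (2 * X.dim) := by rw [hωdef]; exact pow_mem_gr W hξ2 _
  have hζa : ζ ∈ W.algSpan X := by rw [hζdef]; exact pow_mem_alg W hξa _
  have hωa : ω ∈ W.algSpan X := by rw [hωdef]; exact pow_mem_alg W hξa _
  have hvω : ∀ v ∈ W.gr X 1, v * ω = 0 := by
    intro v hv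
    have h1 := W.mul_mem hv hωg
    rwa [W.gr_eq_bot X _ (by omega), Submodule.mem_bot] at h1
  rcases Nat.eq_zero_or_pos p with rfl | hp
  · -- codimension zero
    rw [mul_zero, W.gr_zero, Submodule.mem_span_singleton] at hzp
    obtain ⟨c, rfl⟩ := hzp
    have h1 := hz.2 _ (ofFn_mem_alg W (fun i => W.map (qr i) ω) fun i => W.map_mem_alg _ hωa)
    rw [smul_mul_assoc, one_mul, map_smul, smul_eq_mul, hY.tr_prod (fun _ => ω), mul_eq_zero]
      at h1
    rcases h1 with h1 | h1
    · rw [h1, zero_smul]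
    · rw [Finset.prod_eq_zero_iff] at h1
      obtain ⟨i, _, h2⟩ := h1
      exact absurd h2 hξ0
  · have hYd : Y.dim = n * X.dim := hY.dim
    have hYpos : 0 < Y.dim := by rw [hYd]; positivity
    -- generators
    have hgenY : Algebra.adjoin W.K (W.gr Y 1 : Set (W.H Y)) = ⊤ := by
      rw [eq_top_iff, ← adjoin_TT W hY hgen]
      exact Algebra.adjoin_mono fun y hy => TT_mem W qr hy
    have hZg : zet W qr ζ ω ∈ W.gr Y (2 * (Y.dim - 1)) := by
      rw [hYd]
      exact zet_gr W qr hX hωa hζg hωg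
    -- nondegeneracy
    have hndY : ∀ x ∈ W.gr Y 1,
        (∀ y ∈ W.gr Y 1, W.tr Y (x * y * zet W qr ζ ω) = 0) → x = 0 := by
      intro x hx h0
      obtain ⟨v, hv, rfl⟩ := exists_sum W hY hgen hx
      have hv0 : ∀ l, v l = 0 := by
        intro l
        refine hnd _ (hv l) fun y hy => ?_
        have h1 := h0 _ (W.map_mem (qr l) hy)
        rw [mul_assoc, mul_zet W qr hζa hωa l (hvω y hy), Finset.sum_mul,
          Finset.sum_eq_single l] at h1
        · rw [← mul_assoc, ← _root_.map_mul, tr_alf W qr hY hωa, Finset.prod_eq_zero_iff] at h1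
          obtain ⟨s, _, h2⟩ := h1
          by_cases h : s = l
          · rw [if_pos h, ← mul_assoc] at h2
            exact h2
          · rw [if_neg h] at h2
            exact absurd h2 hξ0
        · intro i _ hi
          rw [← mul_assoc, W.comm (W.map_mem (qr i) (hv i)) (W.map_mem (qr l) (W.mul_mem hy hζg)),
            smul_mul_assoc, mul_assoc, mul_alf_ne W qr hωa hi (hvω _ (hv i)), mul_zero, smul_zero]
        · intro h
          exact absurd (Finset.mem_univ l) h
      exact Finset.sum_eq_zero fun i _ => by rw [hv0, _root_.map_zero]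
    -- the powers
    obtain ⟨P, pr, hPW⟩ := Pool.Agent.Y46.KN.pw (k := k) (𝒱 := 𝒱) X (p + p) (by omega)
    obtain ⟨P', pr', hPW'⟩ := Pool.Agent.Y46.KN.pw (k := k) (𝒱 := 𝒱) Y (p + p) (by omega)
    have hP := hPW ops W
    have hP' := hPW' ops W
    -- the sum
    have hF : ∀ i : Fin n, ∃ F : P' ⟶ X, ∀ v ∈ W.gr X 1,
        W.map F v = ∑ l, W.map (pr' l ≫ qr i) v := by
      intro i
      obtain ⟨F, hF⟩ := Pool.Agent.Y840.KN.sum W X m hm P' (p + p - 1)
        (fun l => pr' (Fin.cast (by omega) l) ≫ qr i)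
      refine ⟨F, fun v hv => ?_⟩
      rw [hF v hv]
      exact Fintype.sum_equiv (finCongr (by omega)) _ _ (fun i => rfl)
    choose Fi hFi using hF
    obtain ⟨F, hF⟩ := hY.exists_map P' Fi
    have hFY : ∀ v ∈ W.gr Y 1, W.map F v = ∑ l, W.map (pr' l) v := by
      intro y hy
      obtain ⟨v, hv, rfl⟩ := exists_sum W hY hgen hy
      rw [_root_.map_sum]
      simp only [_root_.map_sum]
      rw [Finset.sum_comm]
      refine Finset.sum_congr rfl fun i _ => ?_
      rw [← W.map_comp, hF, hFi i _ (hv i)]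
      exact Finset.sum_congr rfl fun l _ => W.map_comp _ _ _
    refine av3 Pool.Agent.Y46.KN.sgn W Y P' pr' hP' (by omega) hYpos hgenY (zet W qr ζ ω) hZg hndY
      F hFY z (by rw [← two_mul]; exact hzp) ?_
    intro x hx
    choose v hv hxv using fun l => exists_sum W hY hgen (hx l)
    have h1 : (fun l => W.map (pr' l) (x l * zet W qr ζ ω)) =
        fun l => ∑ i, W.map (pr' l) (W.map (qr i) (v l i) * zet W qr ζ ω) := by
      funext l
      rw [hxv l, Finset.sum_mul, _root_.map_sum]
    have h2 := MultilinearMap.map_sum (MultilinearMap.mkPiAlgebraFin W.K (p + p) (W.H P'))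
      (fun (l : Fin (p + p)) (i : Fin n) => W.map (pr' l) (W.map (qr i) (v l i) * zet W qr ζ ω))
    simp only [MultilinearMap.mkPiAlgebraFin_apply] at h2
    rw [h1, h2, Finset.mul_sum, _root_.map_sum]
    refine Finset.sum_eq_zero fun φ _ => ?_
    exact van W hP hζa hωa hvω j hj (fun z hz => hvan p hp P pr hP z hz) (W.map_mem_num F hz) φ
      (fun l => ⟨v l (φ l), hv l (φ l)⟩)

end Pool.Agent.Y232.KN
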